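import Pool.Agent.H704.UD.K58.Main

/-!
# Red sets without unit distances that meet every unit-step progression of 58 terms

`S` is the set of the problem: the positive integers `k` for which the plane is the disjoint union
of a red set without two points at distance one and a blue set `B` without `k` points
`x, x + v, ..., x + (k - 1) v`, `‖v‖ = 1`.  We prove `58 ∈ S`, so `min S ≤ 58`.

*The colouring.*  The red set is a union of open discs of radius `1 / 2` whose centres are `14`
points modulo a rectangular lattice with periods `6.712914` and `9.595792`; all distances between
centres are at least `2`.  The centres were found by a numerical optimisation.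

*The proof.*  A progression is given by its starting point `(x, y)` (modulo the lattice) and its
direction, parametrised rationally by `τ`.  The box of all `(x, y, τ)` is cut into about
`315000` boxes; for each of them the certificate names an index `i < 58` and a disc that contains
the `i`-th term of all progressions of the box.  The certificate is checked by the kernel
(`Pool.Agent.H704.UD.Check`, `Sound`, `Geom`).
-/

set_option autoImplicit false

namespace Pool.Agent.Results.MP_2b7a4a_co.MinLeBound

/-- The set `S` of the problem; `B` is the set of blue points. -/
def S : Set ℕ :=
  {k | 1 ≤ k ∧ ∃ B : Set (EuclideanSpace ℝ (Fin 2)),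
    (∀ x ∉ B, ∀ y ∉ B, dist x y ≠ 1) ∧
    ∀ x v : EuclideanSpace ℝ (Fin 2), ‖v‖ = 1 → ¬ ∀ i : ℕ, i < k → x + (i : ℝ) • v ∈ B}

theorem result : 58 ∈ S ∧ sInf S ≤ 58 := by
  have h : 58 ∈ S := ⟨by norm_num, Pool.Agent.H704.UD.K58.main⟩
  exact ⟨h, Nat.sInf_le h⟩

end Pool.Agent.Results.MP_2b7a4a_co.MinLeBound
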